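import Pool.Agent.MP_cd0eb5_co.Defs
import Mathlib

section

namespace Pool.Agent.MP_cd0eb5_co

open Finset Equiv

/-- `c` is a cut position of `σ`. -/
def IsCut {k : ℕ} (σ : Perm (Fin k)) (c : ℕ) : Prop :=
  ∀ a b : Fin k, (a : ℕ) < c → c ≤ (b : ℕ) → σ a < σ b

/-- The sum-indecomposable permutations of length `m + 1`. -/
def basis (m : ℕ) : Set AnyPerm :=
  {x | x.1 = m + 1 ∧ ∀ c, 0 < c → c < x.1 → ¬ IsCut x.2 c}

lemma basis_finite (m : ℕ) : (basis m).Finite := by
  apply Set.Finite.subset (Set.finite_range (fun σ : Perm (Fin (m + 1)) => (⟨m + 1, σ⟩ : AnyPerm)))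
  rintro ⟨k, σ⟩ ⟨hk, _⟩
  simp only at hk
  subst hk
  exact ⟨σ, rfl⟩

lemma basis_nonempty (m : ℕ) : (basis m).Nonempty := by
  refine ⟨⟨m + 1, Fin.revPerm⟩, rfl, ?_⟩
  intro c hc hc' hcut
  have := hcut 0 (Fin.last m) (by simpa using hc) (by simp at hc' ⊢; omega)
  simp at this

lemma exists_pattern {k n : ℕ} (f : Fin k → Fin n) (hf : Function.Injective f) :
    ∃ τ : Perm (Fin k), ∀ a b, τ a < τ b ↔ f a < f b := by
  have hmono : Monotone (f ∘ Tuple.sort f) := Tuple.monotone_sort f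
  have hs : StrictMono (f ∘ Tuple.sort f) :=
    hmono.strictMono_of_injective (hf.comp (Tuple.sort f).injective)
  refine ⟨(Tuple.sort f)⁻¹, fun a b => ?_⟩
  rw [← hs.lt_iff_lt]
  simp

/-- `T` has no cut. -/
def Conn {k : ℕ} (σ : Perm (Fin k)) (T : Finset (Fin k)) : Prop :=
  ∀ c : ℕ, (∃ x ∈ T, (x : ℕ) < c) → (∃ y ∈ T, c ≤ (y : ℕ)) →
    ∃ x ∈ T, ∃ y ∈ T, (x : ℕ) < c ∧ c ≤ (y : ℕ) ∧ σ y < σ x

lemma conn_insert {k : ℕ} {σ : Perm (Fin k)} {T : Finset (Fin k)} (hT : Conn σ T) {z u : Fin k}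
    (hu : u ∈ T) (hinv : (u < z ∧ σ z < σ u) ∨ (z < u ∧ σ u < σ z)) : Conn σ (insert z T) := by
  intro c hx hy
  by_cases h1 : ∃ x ∈ T, (x : ℕ) < c
  · by_cases h2 : ∃ y ∈ T, c ≤ (y : ℕ)
    · obtain ⟨x, hx, y, hy, h⟩ := hT c h1 h2
      exact ⟨x, mem_insert_of_mem hx, y, mem_insert_of_mem hy, h⟩
    · push Not at h2
      obtain ⟨y, hy, hcy⟩ := hy
      rcases mem_insert.1 hy with rfl | hy
      · have huc := h2 u hu
        rcases hinv with ⟨_, h⟩ | ⟨h, _⟩
        · exact ⟨u, mem_insert_of_mem hu, y, mem_insert_self _ _, huc, hcy, h⟩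
        · have : (y : ℕ) < u := h
          omega
      · have := h2 y hy
        omega
  · push Not at h1
    obtain ⟨x, hx, hxc⟩ := hx
    rcases mem_insert.1 hx with rfl | hx
    · have hcu := h1 u hu
      rcases hinv with ⟨h, _⟩ | ⟨_, h⟩
      · have : (u : ℕ) < x := h
        omega
      · exact ⟨x, mem_insert_self _ _, u, mem_insert_of_mem hu, hxc, hcu, h⟩
    · have := h1 x hx
      omega

lemma exists_conn {k m s : ℕ} (σ : Perm (Fin k)) (hs : IsCut σ s) (hsm : s + m < k)
    (hno : ∀ c, s < c → c ≤ s + m → ¬ IsCut σ c) (j : ℕ) (hj : j ≤ m) :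
    ∃ T : Finset (Fin k), T.card = j + 1 ∧ (⟨s, by omega⟩ : Fin k) ∈ T ∧
      (∀ x ∈ T, s ≤ (x : ℕ)) ∧ Conn σ T := by
  classical
  induction j with
  | zero =>
    refine ⟨{⟨s, by omega⟩}, by simp, by simp, by simp, ?_⟩
    intro c hx hy
    simp at hx hy
    omega
  | succ j ih =>
    obtain ⟨T, hcard, hsT, hge, hconn⟩ := ih (by omega)
    have hex : ∃ c : ℕ, s ≤ c ∧ c ≤ s + m ∧ ∀ h : c < k, (⟨c, h⟩ : Fin k) ∉ T := by
      by_contra hcon
      push Not at hcon
      have hsub : Icc s (s + m) ⊆ T.image (fun x : Fin k => (x : ℕ)) := by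
        intro c hc
        obtain ⟨h, hmem⟩ := hcon c (mem_Icc.1 hc).1 (mem_Icc.1 hc).2
        exact mem_image.2 ⟨_, hmem, rfl⟩
      have h1 := card_le_card hsub
      have h2 : (T.image (fun x : Fin k => (x : ℕ))).card ≤ T.card := card_image_le
      rw [Nat.card_Icc] at h1
      omega
    let c := Nat.find hex
    obtain ⟨hsc, hcm, hcT⟩ : s ≤ c ∧ c ≤ s + m ∧ ∀ h : c < k, (⟨c, h⟩ : Fin k) ∉ T :=
      Nat.find_spec hex
    have hck : c < k := by omega
    have hmin : ∀ x : Fin k, s ≤ (x : ℕ) → (x : ℕ) < c → x ∈ T := by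
      intro x h1 h2
      have := Nat.find_min hex h2
      push Not at this
      obtain ⟨_, h⟩ := this h1 (by omega)
      exact h
    have hsc' : s < c := by
      rcases hsc.lt_or_eq with h | h
      · exact h
      · exfalso
        apply hcT hck
        have : (⟨c, hck⟩ : Fin k) = ⟨s, by omega⟩ := Fin.ext h.symm
        rw [this]; exact hsT
    have hnc := hno c hsc' hcm
    unfold IsCut at hnc
    push Not at hnc
    obtain ⟨x, y, hxc, hcy, hxy⟩ := hnc
    have hne : σ y ≠ σ x := by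
      intro h
      have := σ.injective h
      subst this
      omega
    have hyx : σ y < σ x := lt_of_le_of_ne hxy hne
    have hsx : s ≤ (x : ℕ) := by
      by_contra h
      have := hs x y (by omega) (by omega)
      exact absurd this (not_lt.2 hxy)
    have hxT : x ∈ T := hmin x hsx hxc
    have key : ∃ z : Fin k, z ∉ T ∧ s ≤ (z : ℕ) ∧ ∃ u ∈ T,
        (u < z ∧ σ z < σ u) ∨ (z < u ∧ σ u < σ z) := by
      by_cases hyT : y ∈ T
      · refine ⟨⟨c, hck⟩, hcT hck, hsc, ?_⟩
        have hyc : (⟨c, hck⟩ : Fin k) ≠ y := fun h => hcT hck (h ▸ hyT)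
        have hcy' : (⟨c, hck⟩ : Fin k) < y := lt_of_le_of_ne hcy hyc
        rcases lt_or_ge (σ ⟨c, hck⟩) (σ x) with h | h
        · exact ⟨x, hxT, Or.inl ⟨hxc, h⟩⟩
        · exact ⟨y, hyT, Or.inr ⟨hcy', hyx.trans_le h⟩⟩
      · exact ⟨y, hyT, by omega, x, hxT, Or.inl ⟨show (x : ℕ) < y by omega, hyx⟩⟩
    obtain ⟨z, hzT, hsz, u, hu, hinv⟩ := key
    refine ⟨insert z T, by rw [card_insert_of_notMem hzT, hcard], mem_insert_of_mem hsT, ?_,
      conn_insert hconn hu hinv⟩
    intro w hw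
    rcases mem_insert.1 hw with rfl | hw
    · exact hsz
    · exact hge w hw

lemma not_mem_av_of_conn {k m : ℕ} (σ : Perm (Fin k)) (T : Finset (Fin k)) (hcard : T.card = m + 1)
    (hconn : Conn σ T) : (⟨k, σ⟩ : AnyPerm) ∉ Av (basis m) := by
  intro hav
  let e := T.orderEmbOfFin hcard
  obtain ⟨τ, hτ⟩ := exists_pattern (fun a => σ (e a)) (σ.injective.comp e.injective)
  refine hav ⟨m + 1, τ⟩ ⟨rfl, ?_⟩ ⟨e, e.strictMono, hτ⟩
  intro c hc hc' hcut
  simp only at hc' hcut
  have hmem : ∀ a, e a ∈ T := fun a => orderEmbOfFin_mem T hcard a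
  have hsurj : ∀ x ∈ T, ∃ a, e a = x := by
    intro x hx
    have : x ∈ Set.range e := by
      rw [range_orderEmbOfFin]; exact hx
    exact this
  obtain ⟨x, hx, y, hy, hxc, hcy, hlt⟩ := hconn (e ⟨c, hc'⟩)
    ⟨e 0, hmem 0, e.strictMono (show (0 : Fin (m + 1)) < ⟨c, hc'⟩ from hc)⟩
    ⟨e ⟨c, hc'⟩, hmem _, le_rfl⟩
  obtain ⟨a, rfl⟩ := hsurj x hx
  obtain ⟨b, rfl⟩ := hsurj y hy
  have ha : a < ⟨c, hc'⟩ := e.lt_iff_lt.1 hxc
  have hb : (⟨c, hc'⟩ : Fin (m + 1)) ≤ b := e.le_iff_le.1 hcy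
  have := (hτ a b).1 (hcut a b ha hb)
  exact absurd this (not_lt.2 hlt.le)

lemma exists_start {k m : ℕ} (σ : Perm (Fin k)) (hσ : (⟨k, σ⟩ : AnyPerm) ∈ Av (basis m)) :
    ∃ s : Fin k → ℕ, Monotone s ∧ (∀ a, s a ≤ (a : ℕ) ∧ (a : ℕ) < s a + m) ∧
      ∀ a b, s a < s b → σ a < σ b := by
  classical
  have h0 : IsCut σ 0 := fun a b h => absurd h (Nat.not_lt_zero _)
  have hcut : ∀ a : ℕ, IsCut σ (Nat.findGreatest (IsCut σ) a) := fun a =>
    Nat.findGreatest_spec (Nat.zero_le a) h0
  refine ⟨fun a => Nat.findGreatest (IsCut σ) a, ?_, fun a => ⟨Nat.findGreatest_le _, ?_⟩, ?_⟩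
  · intro a b hab
    exact Nat.findGreatest_mono_right _ hab
  · by_contra hcon
    push Not at hcon
    have hak := a.isLt
    obtain ⟨T, hcard, -, -, hconn⟩ := exists_conn (m := m) σ (hcut a) (by omega)
      (fun c h1 h2 => Nat.findGreatest_is_greatest h1 (by omega)) m le_rfl
    exact not_mem_av_of_conn σ T hcard hconn hσ
  · intro a b hab
    simp only at hab
    apply hcut b a b _ (Nat.findGreatest_le _)
    by_contra hcon
    push Not at hcon
    have := Nat.le_findGreatest hcon (hcut b)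
    omega

lemma exists_subseq {n m l : ℕ} (π : Perm (Fin n)) (hl : 0 < l)
    (h : l ≤ longestSubseq (Av (basis m)) π) :
    ∃ (e : Fin l → Fin n) (s : Fin l → ℕ), StrictMono e ∧ Monotone s ∧
      (∀ a, s a ≤ (a : ℕ) ∧ (a : ℕ) < s a + m) ∧ ∀ a b, s a < s b → π (e a) < π (e b) := by
  set S := {k : ℕ | ∃ σ : Perm (Fin k), (⟨k, σ⟩ : AnyPerm) ∈ Av (basis m) ∧ Contains π σ} with hS
  have hne : S.Nonempty := by
    by_contra hcon
    rw [Set.not_nonempty_iff_eq_empty] at hcon
    unfold longestSubseq at h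
    rw [← hS, hcon] at h
    simp at h
    omega
  have hbdd : BddAbove S := by
    refine ⟨n, ?_⟩
    rintro k ⟨σ, -, e, he, -⟩
    simpa using Fintype.card_le_of_injective e he.injective
  obtain ⟨σ, hσ, e, he, hpat⟩ := Nat.sSup_mem hne hbdd
  obtain ⟨s, hs, hs2, hs3⟩ := exists_start σ hσ
  have hle : l ≤ sSup S := h
  refine ⟨fun a => e (Fin.castLE hle a), fun a => s (Fin.castLE hle a), ?_, ?_, ?_, ?_⟩
  · exact he.comp (Fin.strictMono_castLE hle)
  · exact hs.comp (Fin.strictMono_castLE hle).monotone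
  · intro a
    exact hs2 (Fin.castLE hle a)
  · intro a b hab
    exact (hpat _ _).1 (hs3 _ _ hab)

lemma longestSubseq_le (A : Set AnyPerm) {n : ℕ} (π : Perm (Fin n)) : longestSubseq A π ≤ n := by
  unfold longestSubseq
  apply csSup_le'
  rintro k ⟨σ, -, e, he, -⟩
  simpa using Fintype.card_le_of_injective e he.injective

/-- The direct sum of `k` permutations of length `m`. -/
def blockPerm {k m : ℕ} (g : Fin k → Perm (Fin m)) : Perm (Fin (k * m)) :=
  finProdFinEquiv.permCongr (Equiv.prodCongrRight g)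

lemma blockPerm_injective {k m : ℕ} : Function.Injective (blockPerm (k := k) (m := m)) := by
  intro g g' h
  have h1 := finProdFinEquiv.permCongr.injective h
  funext a
  ext b
  have := congrArg (fun e : Fin k × Fin m ≃ Fin k × Fin m => (e (a, b)).2) h1
  simp only [prodCongrRight_apply] at this
  rw [this]

lemma blockPerm_div {k m : ℕ} (hm : 0 < m) (g : Fin k → Perm (Fin m)) (x : Fin (k * m)) :
    (blockPerm g x : ℕ) / m = (x : ℕ) / m := by
  obtain ⟨⟨a, b⟩, rfl⟩ := finProdFinEquiv.surjective x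
  simp only [blockPerm, permCongr_apply, symm_apply_apply, prodCongrRight_apply,
    finProdFinEquiv_apply_val]
  rw [Nat.add_mul_div_left _ _ hm, Nat.add_mul_div_left _ _ hm, Nat.div_eq_of_lt (g a b).isLt,
    Nat.div_eq_of_lt b.isLt]

lemma blockPerm_cut {k m : ℕ} (hm : 0 < m) (g : Fin k → Perm (Fin m)) (σ : Perm (Fin (m + 1)))
    (e : Fin (m + 1) → Fin (k * m)) (he : StrictMono e)
    (hpat : ∀ a b, σ a < σ b ↔ blockPerm g (e a) < blockPerm g (e b)) :
    ∃ c, 0 < c ∧ c < m + 1 ∧ IsCut σ c := by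
  classical
  have hgrow : ∀ a : ℕ, ∀ h : a < m + 1, (e 0 : ℕ) + a ≤ e ⟨a, h⟩ := by
    intro a
    induction a with
    | zero => intro h; exact le_of_eq rfl
    | succ a ih =>
      intro h
      have h' : a < m + 1 := by omega
      have h1 := ih h'
      have h2 : (e ⟨a, h'⟩ : ℕ) < e ⟨a + 1, h⟩ := he (show a < a + 1 by omega)
      omega
  have hex : ∃ c : ℕ, ∃ h : c < m + 1, (e 0 : ℕ) / m < (e ⟨c, h⟩ : ℕ) / m := by
    have h' : m < m + 1 := by omega
    refine ⟨m, h', ?_⟩
    have h1 := hgrow m h'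
    have h2 : ((e 0 : ℕ) + m) / m ≤ (e ⟨m, h'⟩ : ℕ) / m := Nat.div_le_div_right h1
    rw [Nat.add_div_right _ hm] at h2
    omega
  obtain ⟨c, ⟨hc, hlt⟩, hmin⟩ : ∃ c : ℕ, (∃ h : c < m + 1, (e 0 : ℕ) / m < (e ⟨c, h⟩ : ℕ) / m) ∧
      ∀ d < c, ¬ ∃ h : d < m + 1, (e 0 : ℕ) / m < (e ⟨d, h⟩ : ℕ) / m :=
    ⟨Nat.find hex, Nat.find_spec hex, fun d hd => Nat.find_min hex hd⟩
  have hc0 : 0 < c := by
    rcases Nat.eq_zero_or_pos c with h | h
    · exfalso
      have : (⟨c, hc⟩ : Fin (m + 1)) = 0 := Fin.ext h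
      rw [this] at hlt
      exact lt_irrefl _ hlt
    · exact h
  refine ⟨c, hc0, hc, ?_⟩
  intro a b ha hb
  rw [hpat]
  have h1 : (e a : ℕ) / m ≤ (e 0 : ℕ) / m := by
    have := hmin a ha
    push Not at this
    exact this a.isLt
  have h2 : (e ⟨c, hc⟩ : ℕ) / m ≤ (e b : ℕ) / m :=
    Nat.div_le_div_right (he.monotone (show (⟨c, hc⟩ : Fin (m + 1)) ≤ b from hb))
  have h3 : (blockPerm g (e a) : ℕ) / m < (blockPerm g (e b) : ℕ) / m := by
    rw [blockPerm_div hm, blockPerm_div hm]; omega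
  exact Nat.lt_of_div_lt_div h3

lemma blockPerm_mem {k m : ℕ} (hm : 0 < m) (g : Fin k → Perm (Fin m)) :
    (⟨k * m, blockPerm g⟩ : AnyPerm) ∈ Av (basis m) := by
  rintro ⟨j, σ⟩ ⟨hj, hind⟩ ⟨e, he, hpat⟩
  simp only at hj
  subst hj
  obtain ⟨c, h1, h2, h3⟩ := blockPerm_cut hm g σ e he hpat
  exact hind c h1 h2 h3

lemma count_ge {k m : ℕ} (hm : 0 < m) :
    m.factorial ^ k ≤ countOfLength (Av (basis m)) (k * m) := by
  classical
  unfold countOfLength
  have h1 : (Set.univ : Set (Fin k → Perm (Fin m))).ncard = m.factorial ^ k := by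
    rw [Set.ncard_univ, Nat.card_eq_fintype_card]
    simp [Fintype.card_perm]
  rw [← h1]
  apply Set.ncard_le_ncard_of_injOn blockPerm
  · intro g _
    exact blockPerm_mem hm g
  · exact blockPerm_injective.injOn

end Pool.Agent.MP_cd0eb5_co

end

section

namespace Pool.Agent.MP_cd0eb5_co

open Finset Equiv

variable {n : ℕ}

/-- The graph of a permutation as a finite set of points. -/
def graph (π : Perm (Fin n)) : Finset (Fin n × Fin n) :=
  univ.filter (fun p => π p.1 = p.2)

/-- The number of points of `π` in the region `U`. -/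
def hits (U : Finset (Fin n × Fin n)) (π : Perm (Fin n)) : ℕ :=
  (U.filter (fun p => π p.1 = p.2)).card

lemma card_fix (T : Finset (Fin n)) :
    (univ.filter (fun π : Perm (Fin n) => ∀ a ∈ T, π a = a)).card = (n - T.card).factorial := by
  classical
  have e := Equiv.Perm.subtypeEquivSubtypePerm (fun a : Fin n => a ∉ T)
  have h1 : Fintype.card (Perm {a : Fin n // a ∉ T}) = (n - T.card).factorial := by
    rw [Fintype.card_perm]
    congr 1
    simp [Fintype.card_subtype_compl]
  rw [← h1, Fintype.card_congr e, Fintype.card_subtype]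
  congr 1
  ext π
  simp

lemma card_contain (S : Finset (Fin n × Fin n)) :
    (univ.filter (fun π : Perm (Fin n) => ∀ p ∈ S, π p.1 = p.2)).card ≤ (n - S.card).factorial := by
  classical
  rcases (univ.filter (fun π : Perm (Fin n) => ∀ p ∈ S, π p.1 = p.2)).eq_empty_or_nonempty with h | ⟨π₀, h⟩
  · rw [h]; simp
  · have h0 : ∀ p ∈ S, π₀ p.1 = p.2 := by simpa using h
    have hinj : Set.InjOn (fun p : Fin n × Fin n => p.1) S := by
      intro p hp q hq hpq
      have h1 := h0 p hp
      have h2 := h0 q hq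
      simp only at hpq
      apply Prod.ext hpq
      rw [← h1, ← h2, hpq]
    have hc : (S.image (fun p => p.1)).card = S.card := card_image_of_injOn hinj
    rw [← hc, ← card_fix]
    apply card_le_card_of_injOn (fun π => π₀⁻¹ * π)
    · intro π hπ
      have hπ' : ∀ p ∈ S, π p.1 = p.2 := by simpa using hπ
      simp only [coe_filter, mem_univ, true_and, Set.mem_ofPred_eq]
      intro a ha
      obtain ⟨p, hp, rfl⟩ := mem_image.1 ha
      simp only [Perm.coe_mul, Function.comp_apply]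
      rw [hπ' p hp, ← h0 p hp]
      simp
    · intro a _ b _ hab
      exact mul_left_cancel hab

lemma sum_choose_hits (U : Finset (Fin n × Fin n)) (j : ℕ) :
    ∑ π : Perm (Fin n), (hits U π).choose j ≤ U.card.choose j * (n - j).factorial := by
  classical
  have h1 : ∀ π : Perm (Fin n), (hits U π).choose j =
      ∑ S ∈ U.powersetCard j, if (∀ p ∈ S, π p.1 = p.2) then 1 else 0 := by
    intro π
    rw [hits, ← card_powersetCard, ← card_filter]
    congr 1
    ext S
    simp only [mem_powersetCard, mem_filter, subset_iff]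
    constructor
    · rintro ⟨h, hc⟩
      exact ⟨⟨fun x hx => (h hx).1, hc⟩, fun p hp => (h hp).2⟩
    · rintro ⟨⟨h, hc⟩, h2⟩
      exact ⟨fun x hx => ⟨h hx, h2 x hx⟩, hc⟩
  simp_rw [h1]
  rw [sum_comm, ← card_powersetCard, ← smul_eq_mul, ← sum_const]
  apply sum_le_sum
  intro S hS
  rw [← card_filter]
  have := card_contain S
  rwa [(mem_powersetCard.1 hS).2] at this

lemma factorial_sub_mul_le {k j : ℕ} (hj : j ≤ k) (hk : k ≤ n) :
    (n - j).factorial * (n - k) ^ j ≤ n.factorial := by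
  rw [← Nat.factorial_mul_descFactorial (hj.trans hk)]
  apply Nat.mul_le_mul_left
  exact (Nat.pow_le_pow_left (by omega) j).trans (Nat.pow_sub_le_descFactorial n j)

/-- Exponential-moment tail bound for the number of points of a random permutation in `U`. -/
lemma tail_bound (U : Finset (Fin n × Fin n)) {k l : ℕ} (hkl : k ≤ l) (hl : l < n) {t : ℝ}
    (ht : 0 ≤ t) :
    ((univ.filter (fun π : Perm (Fin n) => k ≤ hits U π)).card : ℝ) * (1 + t) ^ k
      ≤ n.factorial * Real.exp (t * U.card / ((n : ℝ) - l)) := by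
  classical
  have hnl : (0 : ℝ) < (n : ℝ) - l := by
    have : (l : ℝ) < n := by exact_mod_cast hl
    linarith
  have step1 : ((univ.filter (fun π : Perm (Fin n) => k ≤ hits U π)).card : ℝ) * (1 + t) ^ k
      ≤ ∑ π : Perm (Fin n), ∑ j ∈ range (k + 1), t ^ j * ((hits U π).choose j : ℝ) := by
    rw [← nsmul_eq_mul, ← sum_const]
    calc ∑ π ∈ univ.filter (fun π : Perm (Fin n) => k ≤ hits U π), (1 + t) ^ k
        ≤ ∑ π ∈ univ.filter (fun π : Perm (Fin n) => k ≤ hits U π),
            ∑ j ∈ range (k + 1), t ^ j * ((hits U π).choose j : ℝ) := by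
          apply sum_le_sum
          intro π hπ
          have hk : k ≤ hits U π := (mem_filter.1 hπ).2
          rw [add_comm, add_pow]
          apply sum_le_sum
          intro j _
          rw [one_pow, mul_one]
          apply mul_le_mul_of_nonneg_left _ (pow_nonneg ht j)
          exact_mod_cast Nat.choose_le_choose j hk
      _ ≤ _ := by
          apply sum_le_sum_of_subset_of_nonneg (filter_subset _ _)
          intro π _ _
          apply sum_nonneg
          intro j _
          positivity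
  refine step1.trans ?_
  rw [sum_comm]
  have hx : 0 ≤ t * U.card / ((n : ℝ) - l) := by positivity
  refine le_trans ?_ (mul_le_mul_of_nonneg_left (Real.sum_le_exp_of_nonneg hx (k + 1))
    (by positivity))
  rw [mul_sum]
  apply sum_le_sum
  intro j hj
  have hjk : j ≤ k := by have := mem_range.1 hj; omega
  rw [← mul_sum]
  have h1 : (∑ π : Perm (Fin n), ((hits U π).choose j : ℝ))
      ≤ (U.card.choose j : ℝ) * ((n - j).factorial : ℝ) := by
    exact_mod_cast sum_choose_hits U j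
  have h2 : (((n - j).factorial : ℕ) : ℝ) * ((n : ℝ) - l) ^ j ≤ n.factorial := by
    have := factorial_sub_mul_le (n := n) (hjk.trans hkl) hl.le
    have h3 : ((n : ℝ) - l) = ((n - l : ℕ) : ℝ) := by
      rw [Nat.cast_sub hl.le]
    rw [h3]
    exact_mod_cast this
  have h3 : (U.card.choose j : ℝ) ≤ (U.card : ℝ) ^ j / j.factorial := Nat.choose_le_pow_div j U.card
  have h4 : (((n - j).factorial : ℕ) : ℝ) ≤ n.factorial / ((n : ℝ) - l) ^ j := by
    rw [le_div_iff₀ (pow_pos hnl j)]; exact h2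
  calc t ^ j * ∑ π : Perm (Fin n), ((hits U π).choose j : ℝ)
      ≤ t ^ j * (((U.card : ℝ) ^ j / j.factorial) * (n.factorial / ((n : ℝ) - l) ^ j)) := by
        apply mul_le_mul_of_nonneg_left _ (pow_nonneg ht j)
        refine h1.trans ?_
        apply mul_le_mul h3 h4 (by positivity) (by positivity)
    _ = n.factorial * ((t * U.card / ((n : ℝ) - l)) ^ j / j.factorial) := by
        rw [div_pow, mul_pow]
        field_simp

end Pool.Agent.MP_cd0eb5_co

end

section

namespace Pool.Agent.MP_cd0eb5_co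

open Finset Equiv

/-- Monotone sequences of length `r + 1` with values at most `K`. -/
noncomputable def seqs (r K : ℕ) : Finset (Fin (r + 1) → ℕ) := by
  classical
  exact (Fintype.piFinset (fun _ => range (K + 1))).filter Monotone

lemma mem_seqs {r K : ℕ} {X : Fin (r + 1) → ℕ} :
    X ∈ seqs r K ↔ (∀ v, X v ≤ K) ∧ Monotone X := by
  classical
  unfold seqs
  simp [Fintype.mem_piFinset]

lemma card_seqs (r K : ℕ) : (seqs r K).card ≤ 2 ^ (K + r + 1) := by
  classical
  have h : (range (K + r + 1)).powerset.card = 2 ^ (K + r + 1) := by simp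
  rw [← h]
  have hsm : ∀ X : Fin (r + 1) → ℕ, Monotone X → StrictMono (fun v : Fin (r + 1) => X v + v) := by
    intro X hX a b hab
    have h1 := hX hab.le
    have h2 : (a : ℕ) < b := hab
    simp only
    omega
  apply card_le_card_of_injOn
    (fun X : Fin (r + 1) → ℕ => univ.image (fun v : Fin (r + 1) => X v + (v : ℕ)))
  · intro X hX
    obtain ⟨h1, -⟩ := mem_seqs.1 hX
    simp only [coe_powerset, coe_range, Set.mem_preimage, coe_image, coe_univ, Set.image_univ,
      Set.mem_powerset_iff]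
    rintro _ ⟨v, rfl⟩
    have := h1 v
    have := v.isLt
    simp only [Set.mem_Iio]
    omega
  · intro X hX Y hY hXY
    obtain ⟨-, h1⟩ := mem_seqs.1 hX
    obtain ⟨-, h2⟩ := mem_seqs.1 hY
    have h3 : Set.range (fun v : Fin (r + 1) => X v + v) =
        Set.range (fun v : Fin (r + 1) => Y v + v) := by
      have := congrArg (fun s : Finset ℕ => (s : Set ℕ)) hXY
      simpa using this
    have h4 := ((hsm X h1).range_inj (hsm Y h2)).1 h3
    funext v
    have h5 : X v + (v : ℕ) = Y v + (v : ℕ) := congrFun h4 v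
    omega

/-- A rectangle of grid cells of side `w`. -/
def rect (n w a b c d : ℕ) : Finset (Fin n × Fin n) :=
  univ.filter (fun p => (a ≤ (p.1 : ℕ) / w ∧ (p.1 : ℕ) / w ≤ b) ∧
    (c ≤ (p.2 : ℕ) / w ∧ (p.2 : ℕ) / w ≤ d))

lemma card_strip (n a b : ℕ) {w : ℕ} (hw : 0 < w) :
    (univ.filter (fun i : Fin n => a ≤ (i : ℕ) / w ∧ (i : ℕ) / w ≤ b)).card ≤ (b + 1 - a) * w := by
  have h : (Ico (a * w) ((b + 1) * w)).card = (b + 1 - a) * w := by
    rw [Nat.card_Ico, Nat.sub_mul]
  rw [← h]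
  apply card_le_card_of_injOn (fun i : Fin n => (i : ℕ))
  · intro i hi
    simp only [coe_filter, mem_univ, true_and, Set.mem_ofPred_eq] at hi
    simp only [coe_Ico, Set.mem_Ico]
    exact ⟨(Nat.le_div_iff_mul_le hw).1 hi.1, (Nat.div_lt_iff_lt_mul hw).1 (by omega)⟩
  · intro i _ j _ hij
    exact Fin.ext hij

lemma card_rect (n a b c d : ℕ) {w : ℕ} (hw : 0 < w) :
    (rect n w a b c d).card ≤ ((b + 1 - a) * w) * ((d + 1 - c) * w) := by
  have h : rect n w a b c d =
      (univ.filter (fun i : Fin n => a ≤ (i : ℕ) / w ∧ (i : ℕ) / w ≤ b)) ×ˢ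
      (univ.filter (fun i : Fin n => c ≤ (i : ℕ) / w ∧ (i : ℕ) / w ≤ d)) := by
    ext p
    simp [rect]
  rw [h, card_product]
  exact Nat.mul_le_mul (card_strip n a b hw) (card_strip n c d hw)

/-- The side length of the `v`-th interval. -/
def len {r : ℕ} (X : Fin (r + 1) → ℕ) (v : Fin r) : ℕ := X v.succ + 1 - X v.castSucc

/-- The indices of big rectangles. -/
def big {r : ℕ} (T : ℕ) (X Y : Fin (r + 1) → ℕ) : Finset (Fin r) :=
  univ.filter (fun v => T ≤ len X v + len Y v)

/-- The union of the small rectangles. -/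
def region (n w : ℕ) {r : ℕ} (T : ℕ) (X Y : Fin (r + 1) → ℕ) : Finset (Fin n × Fin n) :=
  (univ.filter (fun v => ¬ T ≤ len X v + len Y v)).biUnion
    (fun v => rect n w (X v.castSucc) (X v.succ) (Y v.castSucc) (Y v.succ))

lemma sum_len {r K : ℕ} {X : Fin (r + 1) → ℕ} (hX : X ∈ seqs r K) :
    ∑ v, (len X v : ℝ) ≤ K + r := by
  obtain ⟨h1, h2⟩ := mem_seqs.1 hX
  have h3 : ∀ v : Fin r, (len X v : ℝ) = (X v.succ : ℝ) - X v.castSucc + 1 := by
    intro v
    have : X v.castSucc ≤ X v.succ := h2 (Fin.castSucc_lt_succ (i := v)).le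
    unfold len
    rw [Nat.cast_sub (by omega)]
    push_cast
    ring
  simp_rw [h3]
  rw [sum_add_distrib, sum_sub_distrib]
  have h4 := Fin.sum_univ_succ (fun v => (X v : ℝ))
  have h5 := Fin.sum_univ_castSucc (fun v => (X v : ℝ))
  have h6 : (X (Fin.last r) : ℝ) ≤ K := by exact_mod_cast h1 _
  have h7 : (0 : ℝ) ≤ X 0 := by positivity
  simp only [sum_const, card_univ, Fintype.card_fin, nsmul_eq_mul, mul_one]
  linarith

lemma exists_seqs {n m l h w r : ℕ} (T : ℕ) (hh : 0 < h) (hr : l ≤ r * h) (π : Perm (Fin n))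
    (e : Fin l → Fin n) (s : Fin l → ℕ) (he : StrictMono e) (hs : Monotone s)
    (hs2 : ∀ a, s a ≤ (a : ℕ) ∧ (a : ℕ) < s a + m) (hs3 : ∀ a b, s a < s b → π (e a) < π (e b)) :
    ∃ X ∈ seqs r (n / w), ∃ Y ∈ seqs r (n / w),
      l ≤ (h + m) * (big T X Y).card + hits (region n w T X Y) π := by
  classical
  have hg : ∀ a, s a / h < r := by
    intro a
    rw [Nat.div_lt_iff_lt_mul hh]
    have := (hs2 a).1
    have := a.isLt
    omega
  let g : Fin l → Fin r := fun a => ⟨s a / h, hg a⟩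
  let F : (Fin l → Fin n) → Fin (r + 1) → ℕ := fun f v =>
    (univ.filter (fun a => s a / h < (v : ℕ))).sup (fun a => (f a : ℕ) / w)
  have hF : ∀ f, F f ∈ seqs r (n / w) := by
    intro f
    rw [mem_seqs]
    constructor
    · intro v
      apply Finset.sup_le
      intro a _
      exact Nat.div_le_div_right (f a).isLt.le
    · intro u v huv
      apply Finset.sup_mono
      intro a ha
      simp only [mem_filter, mem_univ, true_and] at ha ⊢
      exact lt_of_lt_of_le ha huv
  have hFbd : ∀ f : Fin l → Fin n, (∀ a b, s a < s b → f a < f b) → ∀ a,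
      F f (g a).castSucc ≤ (f a : ℕ) / w ∧ (f a : ℕ) / w ≤ F f (g a).succ := by
    intro f hf a
    constructor
    · apply Finset.sup_le
      intro b hb
      simp only [mem_filter, mem_univ, true_and, Fin.val_castSucc, g] at hb
      exact Nat.div_le_div_right (hf b a (Nat.lt_of_div_lt_div hb)).le
    · apply Finset.le_sup (f := fun a => (f a : ℕ) / w)
      simp [g]
  have he' : ∀ a b, s a < s b → e a < e b := by
    intro a b hab
    apply he
    by_contra hcon
    exact absurd (hs (not_lt.1 hcon)) (not_le.2 hab)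
  refine ⟨F e, hF e, F (fun a => π (e a)), hF _, ?_⟩
  set X := F e
  set Y := F (fun a => π (e a))
  have hsplit := card_filter_add_card_filter_not (s := (univ : Finset (Fin l)))
    (fun a => g a ∈ big T X Y)
  simp only [card_univ, Fintype.card_fin] at hsplit
  have h1 : (univ.filter (fun a => g a ∈ big T X Y)).card ≤ (h + m) * (big T X Y).card := by
    apply card_le_mul_card_image_of_maps_to (f := g)
    · intro a ha
      exact (mem_filter.1 ha).2
    · intro v _
      have hc : (Ico ((v : ℕ) * h) ((v : ℕ) * h + (h + m))).card = h + m := by simp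
      rw [← hc]
      apply card_le_card_of_injOn (fun a : Fin l => (a : ℕ))
      · intro a ha
        simp only [coe_filter, mem_filter, mem_univ, true_and, Set.mem_ofPred_eq] at ha
        have h2 : s a / h = v := congrArg Fin.val ha.2
        have h3 := hs2 a
        have h4 := Nat.div_add_mod (s a) h
        have h5 := Nat.mod_lt (s a) hh
        rw [h2, mul_comm] at h4
        simp only [coe_Ico, Set.mem_Ico]
        omega
      · intro a _ b _ hab
        exact Fin.ext hab
  have h2 : (univ.filter (fun a => ¬ g a ∈ big T X Y)).card ≤ hits (region n w T X Y) π := by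
    unfold hits
    apply card_le_card_of_injOn (fun a => (e a, π (e a)))
    · intro a ha
      simp only [coe_filter, mem_univ, true_and, Set.mem_ofPred_eq, big, mem_filter] at ha
      simp only [coe_filter, Set.mem_ofPred_eq, and_true, region, mem_biUnion, mem_filter, mem_univ,
        true_and]
      refine ⟨g a, ha, ?_⟩
      simp only [rect, mem_filter, mem_univ, true_and]
      exact ⟨hFbd e he' a, hFbd (fun a => π (e a)) hs3 a⟩
    · intro a _ b _ hab
      exact he.injective (congrArg Prod.fst hab)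
  omega

lemma exponent_le {n w r K T M : ℕ} {X Y : Fin (r + 1) → ℕ} (hX : X ∈ seqs r K) (hY : Y ∈ seqs r K)
    (hw : 0 < w) {β D : ℝ} (hD : 0 < D) (hβ : 0 ≤ β) (h1 : (M : ℝ) ≤ β * T / 2)
    (h2 : (w : ℝ) ^ 2 * T ≤ 2 * β * D) :
    (M : ℝ) * (big T X Y).card + (region n w T X Y).card / D ≤ β * (K + r) := by
  have ha : (M : ℝ) * (big T X Y).card ≤
      ∑ v ∈ univ.filter (fun v => T ≤ len X v + len Y v), β * ((len X v : ℝ) + len Y v) / 2 := by
    rw [mul_comm, ← nsmul_eq_mul, ← sum_const]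
    apply sum_le_sum
    intro v hv
    have : (T : ℝ) ≤ (len X v : ℝ) + len Y v := by exact_mod_cast (mem_filter.1 hv).2
    have := mul_le_mul_of_nonneg_left this hβ
    linarith
  have hb : ((region n w T X Y).card : ℝ) / D ≤
      ∑ v ∈ univ.filter (fun v => ¬ T ≤ len X v + len Y v),
        β * ((len X v : ℝ) + len Y v) / 2 := by
    have h3 : ((region n w T X Y).card : ℝ) ≤
        ∑ v ∈ univ.filter (fun v => ¬ T ≤ len X v + len Y v),
          ((rect n w (X v.castSucc) (X v.succ) (Y v.castSucc) (Y v.succ)).card : ℝ) := by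
      exact_mod_cast card_biUnion_le
    rw [div_le_iff₀ hD, sum_mul]
    refine h3.trans (sum_le_sum ?_)
    intro v hv
    have h4 : (len X v : ℝ) + len Y v ≤ T := by
      have := (mem_filter.1 hv).2
      exact_mod_cast (not_le.1 this).le
    have h5 : ((rect n w (X v.castSucc) (X v.succ) (Y v.castSucc) (Y v.succ)).card : ℝ) ≤
        ((len X v : ℝ) * w) * ((len Y v : ℝ) * w) := by
      exact_mod_cast card_rect n (X v.castSucc) (X v.succ) (Y v.castSucc) (Y v.succ) hw
    refine h5.trans ?_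
    set x : ℝ := (len X v : ℝ)
    set y : ℝ := (len Y v : ℝ)
    have hx : 0 ≤ x := by positivity
    have hy : 0 ≤ y := by positivity
    have h6 : x * y ≤ T * (x + y) / 4 := by nlinarith [sq_nonneg (x - y)]
    have h7 : (w : ℝ) ^ 2 * (x * y) ≤ (w : ℝ) ^ 2 * (T * (x + y) / 4) :=
      mul_le_mul_of_nonneg_left h6 (by positivity)
    have h8 := mul_le_mul_of_nonneg_right h2 (add_nonneg hx hy)
    nlinarith
  have hc := sum_filter_add_sum_filter_not univ (fun v => T ≤ len X v + len Y v)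
    (fun v => β * ((len X v : ℝ) + len Y v) / 2)
  have hd : ∑ v, β * ((len X v : ℝ) + len Y v) / 2 ≤ β * (K + r) := by
    rw [← sum_div, ← mul_sum, sum_add_distrib]
    have := mul_le_mul_of_nonneg_left (add_le_add (sum_len hX) (sum_len hY)) hβ
    linarith
  linarith

lemma union_bound {n m l h w r T : ℕ} (hl : 0 < l) (hln : l < n) (hh : 0 < h) (hw : 0 < w)
    (hr : l ≤ r * h) {β t : ℝ} (ht : 0 ≤ t) (hβ : 0 ≤ β) (h1 : ((h + m : ℕ) : ℝ) ≤ β * T / 2)
    (h2 : (w : ℝ) ^ 2 * T ≤ 2 * β * ((n : ℝ) - l)) :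
    ((univ.filter (fun π : Perm (Fin n) => l ≤ longestSubseq (Av (basis m)) π)).card : ℝ)
        * (1 + t) ^ l
      ≤ 4 ^ (n / w + r + 1) * (n.factorial * Real.exp (t * (β * ((n / w : ℕ) + r)))) := by
  classical
  have hD : (0 : ℝ) < (n : ℝ) - l := by
    have : (l : ℝ) < n := by exact_mod_cast hln
    linarith
  set K := n / w
  let E : (Fin (r + 1) → ℕ) × (Fin (r + 1) → ℕ) → Finset (Perm (Fin n)) := fun P =>
    univ.filter (fun π => l - (h + m) * (big T P.1 P.2).card ≤ hits (region n w T P.1 P.2) π)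
  have hsub : univ.filter (fun π : Perm (Fin n) => l ≤ longestSubseq (Av (basis m)) π) ⊆
      (seqs r K ×ˢ seqs r K).biUnion E := by
    intro π hπ
    obtain ⟨e, s, he, hs, hs2, hs3⟩ := exists_subseq π hl (mem_filter.1 hπ).2
    obtain ⟨X, hX, Y, hY, hXY⟩ := exists_seqs (w := w) T hh hr π e s he hs hs2 hs3
    refine mem_biUnion.2 ⟨(X, Y), mem_product.2 ⟨hX, hY⟩, ?_⟩
    simp only [E, mem_filter, mem_univ, true_and]
    omega
  have hcard : ((univ.filter (fun π : Perm (Fin n) => l ≤ longestSubseq (Av (basis m)) π)).card : ℝ)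
      ≤ ∑ P ∈ seqs r K ×ˢ seqs r K, ((E P).card : ℝ) := by
    exact_mod_cast (card_le_card hsub).trans card_biUnion_le
  have hterm : ∀ P ∈ seqs r K ×ˢ seqs r K, ((E P).card : ℝ) * (1 + t) ^ l ≤
      n.factorial * Real.exp (t * (β * ((K : ℝ) + r))) := by
    intro P hP
    obtain ⟨hX, hY⟩ := mem_product.1 hP
    set b := (h + m) * (big T P.1 P.2).card with hb
    have h3 := tail_bound (region n w T P.1 P.2) (k := l - b) (l := l) (Nat.sub_le _ _) hln ht
    have h4 := exponent_le (n := n) hX hY hw hD hβ h1 h2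
    have h5 : (1 + t) ^ l ≤ (1 + t) ^ (l - b) * Real.exp (t * b) := by
      calc (1 + t) ^ l ≤ (1 + t) ^ (l - b + b) := pow_le_pow_right₀ (by linarith) (by omega)
        _ = (1 + t) ^ (l - b) * (1 + t) ^ b := pow_add _ _ _
        _ ≤ (1 + t) ^ (l - b) * Real.exp (t * b) := by
          apply mul_le_mul_of_nonneg_left _ (by positivity)
          rw [mul_comm, Real.exp_nat_mul]
          apply pow_le_pow_left₀ (by linarith)
          linarith [Real.add_one_le_exp t]
    calc ((E P).card : ℝ) * (1 + t) ^ l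
        ≤ ((E P).card : ℝ) * ((1 + t) ^ (l - b) * Real.exp (t * b)) :=
          mul_le_mul_of_nonneg_left h5 (by positivity)
      _ = (((E P).card : ℝ) * (1 + t) ^ (l - b)) * Real.exp (t * b) := by ring
      _ ≤ (n.factorial * Real.exp (t * (region n w T P.1 P.2).card / ((n : ℝ) - l)))
            * Real.exp (t * b) := mul_le_mul_of_nonneg_right h3 (by positivity)
      _ = n.factorial * Real.exp (t * ((b : ℝ) + (region n w T P.1 P.2).card / ((n : ℝ) - l))) := by
          rw [mul_assoc, ← Real.exp_add]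
          congr 2
          ring
      _ ≤ _ := by
          apply mul_le_mul_of_nonneg_left _ (by positivity)
          apply Real.exp_le_exp.2
          apply mul_le_mul_of_nonneg_left _ ht
          rw [hb, Nat.cast_mul]
          exact h4
  have hcnt : (((seqs r K ×ˢ seqs r K).card : ℕ) : ℝ) ≤ 4 ^ (K + r + 1) := by
    rw [card_product]
    have := Nat.mul_le_mul (card_seqs r K) (card_seqs r K)
    rw [← mul_pow] at this
    exact_mod_cast this
  calc _ ≤ (∑ P ∈ seqs r K ×ˢ seqs r K, ((E P).card : ℝ)) * (1 + t) ^ l :=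
        mul_le_mul_of_nonneg_right hcard (by positivity)
    _ ≤ ∑ P ∈ seqs r K ×ˢ seqs r K, n.factorial * Real.exp (t * (β * ((K : ℝ) + r))) := by
        rw [sum_mul]
        exact sum_le_sum hterm
    _ ≤ _ := by
        rw [sum_const, nsmul_eq_mul]
        exact mul_le_mul_of_nonneg_right hcnt (by positivity)

end Pool.Agent.MP_cd0eb5_co

end

section

namespace Pool.Agent.MP_cd0eb5_co

open Finset Equiv Filter
open scoped ENNReal

lemma prob_bound {n m q : ℕ} (hm : m = 1000000) (hq : 200000 ≤ q) (h1 : n < q ^ 2)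
    (h2 : (q - 1) ^ 2 ≤ n) :
    (n : ℝ) * ((univ.filter
      (fun π : Perm (Fin n) => 1200 * q ≤ longestSubseq (Av (basis m)) π)).card : ℝ)
      ≤ n.factorial := by
  have hqR : (200000 : ℝ) ≤ q := by exact_mod_cast hq
  have h1R : (n : ℝ) < (q : ℝ) ^ 2 := by exact_mod_cast h1
  have h2R : ((q : ℝ) - 1) ^ 2 ≤ n := by
    have : ((q - 1 : ℕ) : ℝ) = (q : ℝ) - 1 := by
      rw [Nat.cast_sub (by omega)]; simp
    rw [← this]; exact_mod_cast h2
  have hln : 1200 * q < n := by
    have : ((1200 * q : ℕ) : ℝ) < n := by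
      push_cast
      nlinarith
    exact_mod_cast this
  obtain ⟨r, hr1, hr2⟩ : ∃ r : ℕ, 1200 * q ≤ r * 100000 ∧ r * 100000 ≤ 1200 * q + 100000 :=
    ⟨1200 * q / 100000 + 1, by omega, by omega⟩
  have hb := union_bound (n := n) (m := m) (l := 1200 * q) (h := 100000) (w := q) (r := r)
    (T := 2100) (β := 1061) (t := 1 / 10) (by omega) hln (by norm_num) (by omega) hr1
    (by norm_num) (by norm_num) (by rw [hm]; norm_num) (by push_cast; nlinarith)
  set N : ℝ := ((univ.filter
      (fun π : Perm (Fin n) => 1200 * q ≤ longestSubseq (Av (basis m)) π)).card : ℝ)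
  have hN : 0 ≤ N := by positivity
  obtain ⟨K, hK, hKq⟩ : ∃ K : ℕ, n / q = K ∧ K ≤ q := by
    refine ⟨n / q, rfl, ?_⟩
    apply Nat.div_le_of_le_mul
    rw [← sq]; exact h1.le
  rw [hK] at hb
  have hKR : (K : ℝ) ≤ q := by exact_mod_cast hKq
  have hrR : (r : ℝ) * 100000 ≤ 1200 * q + 100000 := by exact_mod_cast hr2
  have e1 : (4 : ℝ) ^ (K + r + 1) ≤ Real.exp (((K + r + 1 : ℕ) : ℝ) * 1.3863) := by
    rw [Real.exp_nat_mul]
    apply pow_le_pow_left₀ (by norm_num)
    have h3 : (4 : ℝ) = Real.exp (2 * Real.log 2) := by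
      rw [show (2 : ℝ) * Real.log 2 = ((2 : ℕ) : ℝ) * Real.log 2 by norm_num, Real.exp_nat_mul,
        Real.exp_log (by norm_num)]
      norm_num
    rw [h3]
    apply Real.exp_le_exp.2
    have := Real.log_two_lt_d9
    linarith
  have e2 : Real.exp (((1200 * q : ℕ) : ℝ) * (1 / 11)) ≤ (1 + 1 / 10 : ℝ) ^ (1200 * q) := by
    rw [Real.exp_nat_mul]
    apply pow_le_pow_left₀ (by positivity)
    have h3 := Real.add_one_le_exp (-(1 / 11))
    rw [Real.exp_neg] at h3
    have h4 := Real.exp_pos (1 / 11)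
    rw [le_inv_comm₀ (by norm_num) h4] at h3
    linarith
  have e3 : (n : ℝ) ≤ Real.exp ((q : ℝ) / 5) := by
    have h3 := Real.pow_div_factorial_le_exp ((q : ℝ) / 5) (by positivity) 3
    have h4 : ((Nat.factorial 3 : ℕ) : ℝ) = 6 := by norm_num [Nat.factorial]
    rw [h4] at h3
    have h5 : (q : ℝ) ^ 2 ≤ ((q : ℝ) / 5) ^ 3 / 6 := by
      have : ((q : ℝ) / 5) ^ 3 / 6 = (q : ℝ) ^ 2 * (q / 750) := by ring
      rw [this]
      apply le_mul_of_one_le_right (by positivity)
      linarith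
    linarith
  have hF : (0 : ℝ) < n.factorial := by positivity
  have e4 : N * Real.exp (((1200 * q : ℕ) : ℝ) * (1 / 11)) ≤
      n.factorial * Real.exp (((K + r + 1 : ℕ) : ℝ) * 1.3863 + 1 / 10 * (1061 * ((K : ℝ) + r))) := by
    calc _ ≤ N * (1 + 1 / 10 : ℝ) ^ (1200 * q) := mul_le_mul_of_nonneg_left e2 hN
      _ ≤ _ := hb
      _ ≤ Real.exp (((K + r + 1 : ℕ) : ℝ) * 1.3863) *
          (n.factorial * Real.exp (1 / 10 * (1061 * ((K : ℝ) + r)))) :=
        mul_le_mul_of_nonneg_right e1 (by positivity)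
      _ = _ := by rw [Real.exp_add]; ring
  have e5 : Real.exp ((q : ℝ) / 5) *
      Real.exp (((K + r + 1 : ℕ) : ℝ) * 1.3863 + 1 / 10 * (1061 * ((K : ℝ) + r))) ≤
      Real.exp (((1200 * q : ℕ) : ℝ) * (1 / 11)) := by
    rw [← Real.exp_add]
    apply Real.exp_le_exp.2
    push_cast
    linarith
  have hE := Real.exp_pos (((1200 * q : ℕ) : ℝ) * (1 / 11))
  apply le_of_mul_le_mul_right _ hE
  calc (n : ℝ) * N * Real.exp (((1200 * q : ℕ) : ℝ) * (1 / 11))
      = (n : ℝ) * (N * Real.exp (((1200 * q : ℕ) : ℝ) * (1 / 11))) := by ring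
    _ ≤ Real.exp ((q : ℝ) / 5) * (n.factorial *
        Real.exp (((K + r + 1 : ℕ) : ℝ) * 1.3863 + 1 / 10 * (1061 * ((K : ℝ) + r)))) :=
      mul_le_mul e3 e4 (by positivity) (by positivity)
    _ = n.factorial * (Real.exp ((q : ℝ) / 5) *
        Real.exp (((K + r + 1 : ℕ) : ℝ) * 1.3863 + 1 / 10 * (1061 * ((K : ℝ) + r)))) := by ring
    _ ≤ _ := mul_le_mul_of_nonneg_left e5 hF.le

lemma mean_le {n m q : ℕ} (hm : m = 1000000) (hq : 200000 ≤ q) (h1 : n < q ^ 2)
    (h2 : (q - 1) ^ 2 ≤ n) : meanLongestSubseq (Av (basis m)) n ≤ 1200 * q + 1 := by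
  classical
  have hF : (0 : ℝ) < n.factorial := by positivity
  unfold meanLongestSubseq
  rw [div_le_iff₀ hF]
  have h3 : ∀ π : Perm (Fin n), (longestSubseq (Av (basis m)) π : ℝ) ≤
      1200 * q + (if 1200 * q ≤ longestSubseq (Av (basis m)) π then (n : ℝ) else 0) := by
    intro π
    split_ifs with h
    · have : (longestSubseq (Av (basis m)) π : ℝ) ≤ n := by exact_mod_cast longestSubseq_le _ π
      have : (0 : ℝ) ≤ 1200 * q := by positivity
      linarith
    · have : (longestSubseq (Av (basis m)) π : ℝ) ≤ ((1200 * q : ℕ) : ℝ) := by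
        exact_mod_cast (not_le.1 h).le
      push_cast at this
      linarith
  refine (sum_le_sum (fun π _ => h3 π)).trans ?_
  rw [sum_add_distrib, ← sum_filter, sum_const, sum_const, card_univ, Fintype.card_perm,
    Fintype.card_fin, nsmul_eq_mul, nsmul_eq_mul]
  have := prob_bound hm hq h1 h2
  linarith

lemma eventually_mean_le {m : ℕ} (hm : m = 1000000) :
    ∀ᶠ n : ℕ in atTop, meanLongestSubseq (Av (basis m)) n / √(n : ℝ) ≤ 1201 := by
  filter_upwards [eventually_ge_atTop (200000 * 200000)] with n hn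
  have h1 : 200000 ≤ Nat.sqrt n := Nat.le_sqrt.2 hn
  have h2 := mean_le (n := n) (q := Nat.sqrt n + 1) hm (by omega) (Nat.lt_succ_sqrt' n)
    (by simpa using Nat.sqrt_le' n)
  have h3 : (Nat.sqrt n : ℝ) ≤ √(n : ℝ) := Real.nat_sqrt_le_real_sqrt
  have h4 : (200000 : ℝ) ≤ Nat.sqrt n := by exact_mod_cast h1
  rw [div_le_iff₀ (by linarith)]
  push_cast at h2
  linarith

lemma cConst_le {m : ℕ} (hm : m = 1000000) : cConst (Av (basis m)) < 361000 := by
  unfold cConst
  have h1 : limsup (fun n : ℕ => ENNReal.ofReal (meanLongestSubseq (Av (basis m)) n / √(n : ℝ)))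
      atTop ≤ ENNReal.ofReal 1201 := by
    apply limsup_le_of_le
    · isBoundedDefault
    · filter_upwards [eventually_mean_le hm] with n hn
      exact ENNReal.ofReal_le_ofReal hn
  calc _ ≤ (ENNReal.ofReal 1201 / 2) ^ 2 := by gcongr
    _ = ENNReal.ofReal ((1201 / 2) ^ 2) := by
        rw [ENNReal.ofReal_pow (by norm_num), ENNReal.ofReal_div_of_pos (by norm_num)]
        simp
    _ < ENNReal.ofReal 361000 := by
        rw [ENNReal.ofReal_lt_ofReal_iff (by norm_num)]
        norm_num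
    _ = 361000 := by simp

lemma pow_le_factorial {m : ℕ} (hm : 1000000 ≤ m) : 361000 ^ m ≤ m.factorial := by
  have h1 := Real.pow_div_factorial_le_exp (m : ℝ) (by positivity) m
  have hF : (0 : ℝ) < m.factorial := by positivity
  rw [div_le_iff₀ hF] at h1
  have h2 : Real.exp m = Real.exp 1 ^ m := by rw [← Real.exp_nat_mul, mul_one]
  have h3 : (361000 : ℝ) * Real.exp 1 ≤ m := by
    have := Real.exp_one_lt_d9
    have : (1000000 : ℝ) ≤ m := by exact_mod_cast hm
    linarith
  have h4 : ((361000 : ℝ) * Real.exp 1) ^ m ≤ (m : ℝ) ^ m := pow_le_pow_left₀ (by positivity) h3 m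
  rw [mul_pow] at h4
  have h5 : (361000 : ℝ) ^ m ≤ m.factorial := by
    apply le_of_mul_le_mul_right _ (pow_pos (Real.exp_pos 1) m)
    rw [h2] at h1
    linarith
  exact_mod_cast h5

lemma le_sConst {m : ℕ} (hm : 1000000 ≤ m) : 361000 ≤ sConst (Av (basis m)) := by
  unfold sConst
  apply le_limsup_of_frequently_le
  · rw [frequently_atTop]
    intro a
    have hm0 : 0 < m := by omega
    refine ⟨(a + 1) * m, by nlinarith, ?_⟩
    have h1 : 361000 ^ ((a + 1) * m) ≤ countOfLength (Av (basis m)) ((a + 1) * m) := by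
      refine le_trans ?_ (count_ge hm0)
      rw [mul_comm, pow_mul]
      exact Nat.pow_le_pow_left (pow_le_factorial hm) _
    have h2 : ((361000 : ℝ≥0∞)) ^ ((a + 1) * m) ≤
        (countOfLength (Av (basis m)) ((a + 1) * m) : ℝ≥0∞) := by exact_mod_cast h1
    have hne : (a + 1) * m ≠ 0 := by positivity
    calc (361000 : ℝ≥0∞) = ((361000 : ℝ≥0∞) ^ ((a + 1) * m)) ^ ((1 : ℝ) / ((a + 1) * m : ℕ)) := by
          rw [one_div, ENNReal.pow_rpow_inv_natCast hne]
      _ ≤ _ := ENNReal.rpow_le_rpow h2 (by positivity)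
  · isBoundedDefault

theorem main : ∃ B : Set AnyPerm, B.Finite ∧ B.Nonempty ∧ cConst (Av B) < sConst (Av B) := by
  obtain ⟨m, hm⟩ : ∃ m : ℕ, m = 1000000 := ⟨_, rfl⟩
  exact ⟨basis m, basis_finite m, basis_nonempty m, (cConst_le hm).trans_le (le_sConst hm.ge)⟩

end Pool.Agent.MP_cd0eb5_co

end
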